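import Mathlib
import Pool.Agent.MP_a31471_co.Main

/-!
Two-colourings with far fewer monochromatic `k`-term progressions than a random colouring: the
minimum density is smaller than the random density by a factor `exp (-c (log k) ^ 2)`.
-/

set_option autoImplicit false

namespace Pool.Agent.Results.MP_a31471_co.SuperPolyGain

/-- The number of pairs `(a, d)` with `a, d ≥ 1` and `a + (k - 1) d ≤ n` such that the colouring
`c` takes one value on `a, a + d, …, a + (k - 1) d`. Only the values of `c` on `[n]` are read. -/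
def mono (k n : ℕ) (c : ℕ → Bool) : ℕ :=
  ((Finset.Icc 1 n ×ˢ Finset.Icc 1 n).filter
    (fun q => q.1 + (k - 1) * q.2 ≤ n ∧ ∀ i < k, c (q.1 + i * q.2) = c q.1)).card

/-- `A(n; k)`, the minimum over all two-colourings. -/
noncomputable def A (n k : ℕ) : ℕ := sInf (Set.range (mono k n))

/-- `δ_k`. -/
noncomputable def delta (k : ℕ) : ℝ :=
  Filter.liminf (fun n : ℕ => (A n k : ℝ) / (n : ℝ) ^ 2) Filter.atTop

theorem result : ∃ c : ℝ, 0 < c ∧ ∃ k₀ : ℕ, ∀ k ≥ k₀,
    (∀ n : ℕ, (A n k : ℝ)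
      ≤ Real.exp (-c * Real.log k ^ 2) / (((k : ℝ) - 1) * 2 ^ k) * (n : ℝ) ^ 2) ∧
    delta k ≤ Real.exp (-c * Real.log k ^ 2) / (((k : ℝ) - 1) * 2 ^ k) := by
  obtain ⟨c, hc, k0, h⟩ := Pool.Agent.MP_a31471_co.main
  refine ⟨c, hc, k0, fun k hk => ?_⟩
  have h1 : ∀ n : ℕ, (A n k : ℝ)
      ≤ Real.exp (-c * Real.log k ^ 2) / (((k : ℝ) - 1) * 2 ^ k) * (n : ℝ) ^ 2 := by
    intro n
    obtain ⟨col, hcol⟩ := (h k hk).2 n
    refine le_trans ?_ hcol
    unfold Pool.Agent.MP_a31471_co.APs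
    rw [Finset.filter_filter]
    have : A n k ≤ mono k n col := Nat.sInf_le ⟨col, rfl⟩
    exact_mod_cast this
  refine ⟨h1, Filter.liminf_le_of_frequently_le ?_ ?_⟩
  · refine ((Filter.eventually_gt_atTop 0).mono fun n hn => ?_).frequently
    rw [div_le_iff₀ (by positivity)]
    exact h1 n
  · exact Filter.isBoundedUnder_of ⟨0, fun n => by positivity⟩

end Pool.Agent.Results.MP_a31471_co.SuperPolyGain
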